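import Mathlib
import Pool.Agent.Helper5.Iso.Main

/-!
The connectedness locus `N` of diagonal affine pairs has no isolated point `(γ, λ)` with
`γ * λ ≤ 0`.
-/

namespace Pool.Agent.Results.MP_35e092_an.OppositeSigns

open Pool.Agent.Iso

theorem result : ∀ p : ℝ × ℝ, IsIsolated p → 0 < p.1 * p.2 := by
  intro p hp
  by_contra hcon
  exact not_isolated (not_lt.1 hcon) hp

end Pool.Agent.Results.MP_35e092_an.OppositeSigns
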