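import Mathlib
import Pool.Agent.Helper65.Conn.Main2

/-!
Every isolated point `(γ, λ)` of the connectedness locus `N` of diagonal affine pairs satisfies
`min |γ| |λ| < 0.514`, or the pair `(min |γ| |λ|, max |γ| |λ|)` lies in one of nine small explicit
rectangles.
-/

namespace Pool.Agent.Results.MP_35e092_an.SameSigns

open Pool.Agent.Iso

theorem result : ∀ p : ℝ × ℝ, IsIsolated p →
    min |p.1| |p.2| < 0.514 ∨
      (min |p.1| |p.2|, max |p.1| |p.2|) ∈ Pool.Agent.Helper65.Conn.ExcSet :=
  fun _ hp => Pool.Agent.Helper65.Conn.min_lt_or hp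

end Pool.Agent.Results.MP_35e092_an.SameSigns
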